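import Pool.Agent.H77.PM.Targets

set_option autoImplicit false

open Set Filter Topology

namespace Pool.Agent.H19.PM

open Pool.Agent.H77.PM

theorem pf_ANA : T_ANA := by
  intro X Y _ _ A B g hA hB hg
  rcases hA with rfl | ⟨f, hf, rfl⟩
  · left
    simp
  · have hD : MeasurableSet (f ⁻¹' B) := hf hB
    have h1 : MeasureTheory.AnalyticSet (f ⁻¹' B) := hD.analyticSet
    rw [MeasureTheory.AnalyticSet] at h1
    rcases h1 with h1 | ⟨h, hh, hr⟩
    · left
      refine eq_empty_iff_forall_notMem.mpr ?_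
      rintro y ⟨x, ⟨⟨z, rfl⟩, hx⟩, rfl⟩
      have : z ∈ f ⁻¹' B := hx
      rw [h1] at this
      exact this
    · right
      refine ⟨fun z => g (f (h z)), hg.comp (hf.comp hh.measurable), ?_⟩
      ext y
      constructor
      · rintro ⟨z, rfl⟩
        have : h z ∈ f ⁻¹' B := by rw [← hr]; exact ⟨z, rfl⟩
        exact ⟨f (h z), ⟨⟨h z, rfl⟩, this⟩, rfl⟩
      · rintro ⟨x, ⟨⟨z, rfl⟩, hx⟩, rfl⟩
        have : z ∈ f ⁻¹' B := hx
        rw [← hr] at this
        obtain ⟨w, rfl⟩ := this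
        exact ⟨w, rfl⟩

end Pool.Agent.H19.PM
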