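import Pool.Agent.H55.PM.Targets

set_option autoImplicit false

open Finset Pool.Agent.H55.PM

namespace Pool.Agent.H19.PMGP

theorem log2_mul (a m : ℕ) (ha : 0 < a) (hm : 0 < m) :
    Nat.log 2 (a * m) = Nat.log 2 a + Nat.log 2 m ∨
      Nat.log 2 (a * m) = Nat.log 2 a + Nat.log 2 m + 1 := by
  have h1 : 2 ^ Nat.log 2 a ≤ a := Nat.pow_log_le_self 2 ha.ne'
  have h2 : 2 ^ Nat.log 2 m ≤ m := Nat.pow_log_le_self 2 hm.ne'
  have h3 : a < 2 ^ (Nat.log 2 a + 1) := Nat.lt_pow_succ_log_self (by norm_num) a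
  have h4 : m < 2 ^ (Nat.log 2 m + 1) := Nat.lt_pow_succ_log_self (by norm_num) m
  have h5 : 2 ^ (Nat.log 2 a + Nat.log 2 m) ≤ a * m := by
    rw [pow_add]; exact Nat.mul_le_mul h1 h2
  have h6 : a * m < 2 ^ (Nat.log 2 a + Nat.log 2 m + 2) := by
    calc a * m < 2 ^ (Nat.log 2 a + 1) * 2 ^ (Nat.log 2 m + 1) := Nat.mul_lt_mul'' h3 h4
      _ = _ := by rw [← pow_add]; congr 1; ring
  have h7 : Nat.log 2 a + Nat.log 2 m ≤ Nat.log 2 (a * m) :=
    Nat.le_log_of_pow_le (by norm_num) h5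
  have h8 : Nat.log 2 (a * m) < Nat.log 2 a + Nat.log 2 m + 2 :=
    Nat.log_lt_of_lt_pow (by positivity) h6
  omega

/-- the finite set `A ∩ [1, N]` -/
noncomputable def fin (A : Set ℕ) (N : ℕ) : Finset ℕ :=
  ((Set.finite_Icc 1 N).subset (Set.inter_subset_right : A ∩ Set.Icc 1 N ⊆ _)).toFinset

theorem mem_fin (A : Set ℕ) (N a : ℕ) : a ∈ fin A N ↔ a ∈ A ∧ 1 ≤ a ∧ a ≤ N := by
  simp [fin]

theorem card_fin (A : Set ℕ) (N : ℕ) : (fin A N).card = cnt A N := by
  unfold fin cnt
  rw [Set.ncard_eq_toFinset_card _ ((Set.finite_Icc 1 N).subset Set.inter_subset_right)]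

theorem main : T_GP := by
  classical
  intro A M n₀ s hA hP hn
  set N := 2 ^ 2 ^ (s + 2) with hN
  set c := cnt A N with hc
  set G := Nat.log 2 c + 1 with hG
  have hG0 : 0 < G := Nat.succ_pos _
  let LA : Finset ℕ := insert 0 ((range (s + 3)).image (fun r : ℕ => 2 ^ r))
  have hLA : LA.card ≤ s + 4 := by
    calc LA.card ≤ ((range (s + 3)).image (fun r : ℕ => 2 ^ r)).card + 1 :=
          Finset.card_insert_le (0 : ℕ) ((range (s + 3)).image (fun r : ℕ => 2 ^ r))
      _ ≤ (range (s + 3)).card + 1 := Nat.succ_le_succ Finset.card_image_le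
      _ = s + 4 := by simp
  let Occ : Finset ℕ := (LA ×ˢ (fin M N ×ˢ range 2)).image
    (fun p => p.1 + Nat.log 2 p.2.1 + p.2.2)
  have hOcc : Occ.card ≤ 2 * (s + 4) * cnt M N := by
    calc Occ.card ≤ (LA ×ˢ (fin M N ×ˢ range 2)).card := Finset.card_image_le
      _ = LA.card * (cnt M N * 2) := by
          rw [Finset.card_product, Finset.card_product, card_fin, Finset.card_range]
      _ ≤ (s + 4) * (cnt M N * 2) := Nat.mul_le_mul_right _ hLA
      _ = _ := by ring
  by_contra hcon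
  push Not at hcon
  set B := 2 ^ (s + 1) / G with hB
  have hex : ∃ j ∈ range B, j ∉ Occ.image (fun l => (l - 2 ^ (s + 1)) / G) := by
    by_contra hno
    push Not at hno
    have h1 : (range B).card ≤ (Occ.image (fun l => (l - 2 ^ (s + 1)) / G)).card :=
      Finset.card_le_card hno
    have h2 : (Occ.image (fun l => (l - 2 ^ (s + 1)) / G)).card ≤ Occ.card :=
      Finset.card_image_le
    rw [Finset.card_range] at h1
    omega
  obtain ⟨j, hj, hjn⟩ := hex
  rw [Finset.mem_range] at hj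
  have hfree : ∀ l ∈ Occ, ¬ (2 ^ (s + 1) + j * G ≤ l ∧ l < 2 ^ (s + 1) + j * G + G) := by
    rintro l hl ⟨h1, h2⟩
    apply hjn
    rw [Finset.mem_image]
    refine ⟨l, hl, ?_⟩
    apply Nat.div_eq_of_lt_le
    · rw [Nat.le_sub_iff_add_le (by omega)]
      omega
    · rw [Nat.succ_mul]
      omega
  set u := 2 ^ (s + 1) + j * G with hu
  have huG : u + G ≤ 2 ^ (s + 2) := by
    have h1 : (j + 1) * G ≤ B * G := Nat.mul_le_mul_right _ hj
    have h2 : B * G ≤ 2 ^ (s + 1) := Nat.div_mul_le_self _ _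
    have h3 : 2 ^ (s + 2) = 2 ^ (s + 1) + 2 ^ (s + 1) := by ring
    have h4 : (j + 1) * G = j * G + G := by ring
    omega
  have hu1 : 2 ^ (s + 1) ≤ u := Nat.le_add_right _ _
  have hu2 : 2 ≤ 2 ^ u := by
    calc 2 = 2 ^ 1 := rfl
      _ ≤ 2 ^ u := Nat.pow_le_pow_right (by norm_num) (le_trans Nat.one_le_two_pow hu1)
  have hnu : n₀ ≤ 2 ^ u := le_trans hn (Nat.pow_le_pow_right (by norm_num) hu1)
  have hcG : c < 2 ^ G := Nat.lt_pow_succ_log_self (by norm_num) c
  have hGe : 2 ≤ 2 ^ G := by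
    calc 2 = 2 ^ 1 := rfl
      _ ≤ 2 ^ G := Nat.pow_le_pow_right (by norm_num) hG0
  have hpow : 2 ^ (u + G) = 2 ^ G * 2 ^ u := by rw [pow_add, mul_comm]
  have hNle : 2 ^ (u + G) ≤ N := Nat.pow_le_pow_right (by norm_num) huG
  have hn0 : n₀ ≤ 2 ^ (u + G) - 1 := by
    have : 2 * 2 ^ u ≤ 2 ^ G * 2 ^ u := Nat.mul_le_mul_right _ hGe
    omega
  have hne : (PS A M (2 ^ (u + G) - 1)).Nonempty := by
    apply Set.nonempty_of_ncard_ne_zero
    have := hP _ hn0
    unfold pc at this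
    omega
  obtain ⟨p, hp⟩ := hne
  have hsum : ∑ a ∈ p.parts.toFinset, p.parts.count a * a = 2 ^ (u + G) - 1 := by
    have h1 := Finset.sum_multiset_count p.parts
    have h2 := p.parts_sum
    simp only [smul_eq_mul] at h1
    exact h1.symm.trans h2
  have hterm : ∀ a ∈ p.parts.toFinset, p.parts.count a * a ≤ 2 ^ u - 1 := by
    intro a ha
    have h1 : p.parts.count a * a ≤ 2 ^ (u + G) - 1 :=
      le_trans (Finset.single_le_sum (f := fun a => p.parts.count a * a)
        (fun _ _ => Nat.zero_le _) ha) hsum.le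
    have ha' : a ∈ p.parts := Multiset.mem_toFinset.mp ha
    have h2 := hp a ha'
    have h3 : 0 < a := p.parts_pos ha'
    have h4 : 0 < p.parts.count a := Multiset.count_pos.mpr ha'
    have h5 : a ≤ p.parts.count a * a := Nat.le_mul_of_pos_left _ h4
    have h6 : p.parts.count a ≤ p.parts.count a * a := Nat.le_mul_of_pos_right _ h3
    have h7 : a < N := by omega
    have h8 : p.parts.count a ≤ N := by omega
    set m := p.parts.count a with hm
    have hmM : m ∈ fin M N := (mem_fin M N m).mpr ⟨h2.2, h4, h8⟩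
    have hlA : Nat.log 2 a ∈ LA := by
      rcases hA a h2.1 with h | ⟨r, hr1, hr2⟩
      · rw [h]; simp [LA]
      · have h9 : Nat.log 2 a = 2 ^ r := by
          apply le_antisymm
          · have := Nat.log_lt_of_lt_pow h3.ne' hr2
            omega
          · exact Nat.le_log_of_pow_le (by norm_num) hr1
        have h10 : 2 ^ r < 2 ^ (s + 2) := by
          have : 2 ^ 2 ^ r < 2 ^ 2 ^ (s + 2) := lt_of_le_of_lt hr1 h7
          exact (Nat.pow_lt_pow_iff_right (by norm_num)).mp this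
        have h11 : r < s + 2 := (Nat.pow_lt_pow_iff_right (by norm_num)).mp h10
        rw [h9]
        apply Finset.mem_insert_of_mem
        apply Finset.mem_image_of_mem
        rw [Finset.mem_range]
        omega
    have hlO : Nat.log 2 (a * m) ∈ Occ := by
      rcases log2_mul a m h3 h4 with h | h
      · rw [Finset.mem_image]
        exact ⟨(Nat.log 2 a, m, 0), Finset.mem_product.mpr ⟨hlA, Finset.mem_product.mpr
          ⟨hmM, by simp⟩⟩, by simp [h]⟩
      · rw [Finset.mem_image]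
        exact ⟨(Nat.log 2 a, m, 1), Finset.mem_product.mpr ⟨hlA, Finset.mem_product.mpr
          ⟨hmM, by simp⟩⟩, by simp [h]⟩
    have h12 := hfree _ hlO
    have h13 : Nat.log 2 (a * m) < u + G := by
      apply Nat.log_lt_of_lt_pow (Nat.mul_pos h3 h4).ne'
      rw [mul_comm]
      have : 0 < 2 ^ (u + G) := by positivity
      omega
    have h14 : Nat.log 2 (a * m) < u := by
      by_contra hcc
      push Not at hcc
      exact h12 ⟨hcc, h13⟩
    have h15 : a * m < 2 ^ u := by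
      calc a * m < 2 ^ (Nat.log 2 (a * m) + 1) := Nat.lt_pow_succ_log_self (by norm_num) _
        _ ≤ 2 ^ u := Nat.pow_le_pow_right (by norm_num) h14
    rw [mul_comm] at h15
    omega
  have hcardp : p.parts.toFinset.card ≤ c := by
    rw [hc, ← card_fin]
    apply Finset.card_le_card
    intro a ha
    have ha' : a ∈ p.parts := Multiset.mem_toFinset.mp ha
    rw [mem_fin]
    refine ⟨(hp a ha').1, p.parts_pos ha', ?_⟩
    have h1 : p.parts.count a * a ≤ 2 ^ (u + G) - 1 :=
      le_trans (Finset.single_le_sum (f := fun a => p.parts.count a * a)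
        (fun _ _ => Nat.zero_le _) ha) hsum.le
    have h4 : 0 < p.parts.count a := Multiset.count_pos.mpr ha'
    have h5 : a ≤ p.parts.count a * a := Nat.le_mul_of_pos_left _ h4
    omega
  have hfin : 2 ^ (u + G) - 1 ≤ c * (2 ^ u - 1) := by
    calc 2 ^ (u + G) - 1 = ∑ a ∈ p.parts.toFinset, p.parts.count a * a := hsum.symm
      _ ≤ ∑ _a ∈ p.parts.toFinset, (2 ^ u - 1) := Finset.sum_le_sum hterm
      _ = p.parts.toFinset.card * (2 ^ u - 1) := by rw [Finset.sum_const, smul_eq_mul]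
      _ ≤ c * (2 ^ u - 1) := Nat.mul_le_mul_right _ hcardp
  have hfin2 : (c + 1) * 2 ^ u ≤ 2 ^ (u + G) := by
    rw [hpow]
    exact Nat.mul_le_mul_right _ hcG
  have h16 : c * (2 ^ u - 1) + c = c * 2 ^ u := by
    obtain ⟨w, hw⟩ : ∃ w, 2 ^ u = w + 1 := ⟨2 ^ u - 1, by omega⟩
    rw [hw]
    simp only [Nat.add_sub_cancel]
    ring
  have h17 : (c + 1) * 2 ^ u = c * 2 ^ u + 2 ^ u := by ring
  omega

end Pool.Agent.H19.PMGP
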