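import Pool.Agent.H77.PM.Targets

set_option autoImplicit false

open Set Filter Topology

namespace Pool.Agent.H19.PM

open Pool.Agent.H77.PM

lemma fd_iff {ι : Type} {ar : ι → ℕ} {Z : Type} (x : Code ι ar Z) :
    FD x ↔ ∃ t : Finset (ℕ × ℕ), ∀ i j, ∃ ab ∈ t, x.1 i j = x.1 ab.1 ab.2 := by
  classical
  constructor
  · intro h
    have hp : ∀ d : ℝ, ∃ p : ℕ × ℕ, (∃ i j, x.1 i j = d) → x.1 p.1 p.2 = d := by
      intro d
      by_cases hd : ∃ i j, x.1 i j = d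
      · obtain ⟨i, j, hij⟩ := hd
        exact ⟨(i, j), fun _ => hij⟩
      · exact ⟨(0, 0), fun h' => absurd h' hd⟩
    choose pre hpre using hp
    refine ⟨(Set.Finite.toFinset h).image pre, fun i j => ?_⟩
    refine ⟨pre (x.1 i j), Finset.mem_image.mpr ⟨x.1 i j, ?_, rfl⟩, ?_⟩
    · rw [Set.Finite.mem_toFinset]
      exact ⟨i, j, rfl⟩
    · exact (hpre (x.1 i j) ⟨i, j, rfl⟩).symm
  · rintro ⟨t, ht⟩
    refine (t.finite_toSet.image (fun ab : ℕ × ℕ => x.1 ab.1 ab.2)).subset ?_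
    rintro d ⟨i, j, rfl⟩
    obtain ⟨ab, hab, h⟩ := ht i j
    exact ⟨ab, hab, h.symm⟩

theorem pf_MFD : T_MFD := by
  intro ι ar Z _
  have h : {x : Code ι ar Z | FD x} = ⋃ t : Finset (ℕ × ℕ), ⋂ i : ℕ, ⋂ j : ℕ, ⋃ ab ∈ t,
      {x : Code ι ar Z | x.1 i j = x.1 ab.1 ab.2} := by
    ext x
    simp only [mem_ofPred_eq, mem_iUnion, mem_iInter]
    rw [fd_iff]
    constructor
    · rintro ⟨t, ht⟩
      refine ⟨t, fun i j => ?_⟩
      obtain ⟨ab, hab, h⟩ := ht i j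
      exact ⟨ab, hab, h⟩
    · rintro ⟨t, ht⟩
      refine ⟨t, fun i j => ?_⟩
      obtain ⟨ab, hab, h⟩ := ht i j
      exact ⟨ab, hab, h⟩
  have hm : ∀ i j : ℕ, Measurable (fun x : Code ι ar Z => x.1 i j) := fun i j =>
    (measurable_pi_apply j).comp ((measurable_pi_apply i).comp measurable_fst)
  rw [h]
  exact MeasurableSet.iUnion fun t => MeasurableSet.iInter fun i => MeasurableSet.iInter fun j =>
    Finset.measurableSet_biUnion t fun ab _ => measurableSet_eq_fun (hm i j) (hm ab.1 ab.2)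

end Pool.Agent.H19.PM
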