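import Pool.Agent.H55.PM.Targets

set_option autoImplicit false

open Finset Pool.Agent.H55.PM

namespace Pool.Agent.H19.PMN3

theorem unb (M : Set ℕ) (hM : M.Infinite) (hp : ∀ m ∈ M, 0 < m) (k : ℕ) :
    ∃ Y : ℕ, 2 ≤ Y ∧ k ≤ cnt M Y := by
  obtain ⟨T, hT, hk⟩ := hM.exists_subset_card_eq k
  refine ⟨T.sup id + 2, by omega, ?_⟩
  have h1 : (T : Set ℕ) ⊆ M ∩ Set.Icc 1 (T.sup id + 2) := by
    intro t ht
    refine ⟨hT ht, hp t (hT ht), ?_⟩
    have := Finset.le_sup (f := id) (Finset.mem_coe.mp ht)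
    simp only [id] at this
    show t ≤ T.sup id + 2
    exact le_trans this (by omega)
  have h2 : (T : Set ℕ).ncard ≤ (M ∩ Set.Icc 1 (T.sup id + 2)).ncard :=
    Set.ncard_le_ncard h1 ((Set.finite_Icc _ _).subset Set.inter_subset_right)
  rw [Set.ncard_coe_finset, hk] at h2
  exact h2

theorem main (h : T_N1) : T_N3 := by
  intro A M hM hp hG
  obtain ⟨C, hC0, hC⟩ := h A M hG
  rw [Metric.tendsto_atTop]
  intro ε hε
  obtain ⟨k, hk⟩ := exists_nat_gt (Real.exp (2 * C / ε))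
  obtain ⟨Y, hY2, hY⟩ := unb M hM hp k
  refine ⟨Y, fun X hX => ?_⟩
  have hL : 2 * C / ε < Real.log (1 + cnt M Y) := by
    rw [Real.lt_log_iff_exp_lt (by positivity)]
    have : (k : ℝ) ≤ cnt M Y := by exact_mod_cast hY
    linarith
  have hL0 : 0 < Real.log (1 + cnt M Y) := lt_of_le_of_lt (by positivity) hL
  have hlX : 0 < Real.log X := Real.log_pos (by
    have : (2 : ℝ) ≤ X := by exact_mod_cast le_trans hY2 hX
    linarith)
  have hlY : Real.log Y ≤ Real.log X := Real.log_le_log (by positivity) (by exact_mod_cast hX)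
  have h1 := hC X Y (le_trans hY2 hX) hY2
  have h2 : (cnt A X : ℝ) * Real.log (1 + cnt M Y) ≤ 2 * C * Real.log X := by
    calc _ ≤ C * (Real.log X + Real.log Y) := h1
      _ ≤ C * (Real.log X + Real.log X) := by gcongr
      _ = _ := by ring
  rw [Real.dist_eq, sub_zero, abs_of_nonneg (by positivity), div_lt_iff₀ hlX]
  have h3 : 2 * C < ε * Real.log (1 + cnt M Y) := by
    rw [div_lt_iff₀ hε] at hL
    linarith
  have h4 : (cnt A X : ℝ) * Real.log (1 + cnt M Y) < ε * Real.log X * Real.log (1 + cnt M Y) := by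
    calc _ ≤ 2 * C * Real.log X := h2
      _ < ε * Real.log (1 + cnt M Y) * Real.log X := by gcongr
      _ = _ := by ring
  exact lt_of_mul_lt_mul_right h4 hL0.le

end Pool.Agent.H19.PMN3
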