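import Pool.Agent.H77.PM.Targets

set_option autoImplicit false

open Set Filter Topology

namespace Pool.Agent.H19.PM

open Pool.Agent.H77.PM

lemma surj_of_dist {M N : Type} [MetricSpace M] [CompleteSpace M] [MetricSpace N]
    (q : ℕ → M) (p : ℕ → N) (hq : IsClosed (range q)) (hp : DenseRange p)
    (h : ∀ i j, dist (q i) (q j) = dist (p i) (p j)) : Function.Surjective p := by
  intro s
  have hs : s ∈ closure (range p) := hp s
  rw [mem_closure_iff_seq_limit] at hs
  obtain ⟨x, hx, hlim⟩ := hs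
  choose n hn using hx
  have hxn : x = fun k => p (n k) := funext fun k => (hn k).symm
  subst hxn
  have hc : CauchySeq (fun k => q (n k)) := by
    have h1 := hlim.cauchySeq
    rw [Metric.cauchySeq_iff] at h1 ⊢
    intro ε hε
    obtain ⟨N, hN⟩ := h1 ε hε
    refine ⟨N, fun a ha b hb => ?_⟩
    rw [h]
    exact hN a ha b hb
  obtain ⟨z, hz⟩ := cauchySeq_tendsto_of_complete hc
  have hzr : z ∈ range q := hq.mem_of_tendsto hz (Eventually.of_forall fun k => ⟨n k, rfl⟩)
  obtain ⟨m, rfl⟩ := hzr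
  refine ⟨m, ?_⟩
  have h2 : Tendsto (fun k => p (n k)) atTop (𝓝 (p m)) := by
    rw [tendsto_iff_dist_tendsto_zero] at hz ⊢
    refine hz.congr fun k => ?_
    exact h _ _
  exact tendsto_nhds_unique h2 hlim

theorem pf_SAM : T_SAM := by
  intro ι ar Z _ S T q q' _ hqc _ hqc' hSame
  obtain ⟨S', T', ⟨p, hp, hcp⟩, ⟨p', hp', hcp'⟩, e', he'd, he'f⟩ := hSame
  have hd : ∀ i j, dist (q i) (q j) = dist (p i) (p j) := fun i j =>
    congrFun (congrFun (congrArg Prod.fst hcp) i) j
  have hd' : ∀ i j, dist (q' i) (q' j) = dist (p' i) (p' j) := fun i j =>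
    congrFun (congrFun (congrArg Prod.fst hcp') i) j
  have hf : ∀ i (a : Fin (ar i) → ℕ), S.f i (q ∘ a) = S'.f i (p ∘ a) := fun i a =>
    congrFun (congrFun (congrArg Prod.snd hcp) i) a
  have hf' : ∀ i (a : Fin (ar i) → ℕ), T.f i (q' ∘ a) = T'.f i (p' ∘ a) := fun i a =>
    congrFun (congrFun (congrArg Prod.snd hcp') i) a
  have hb : Function.Bijective p := ⟨hp.1, surj_of_dist q p hqc hp.2 hd⟩
  have hb' : Function.Bijective p' := ⟨hp'.1, surj_of_dist q' p' hqc' hp'.2 hd'⟩
  refine ⟨((Equiv.ofBijective p hb).trans e').trans (Equiv.ofBijective p' hb').symm, ?_, ?_⟩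
  · have key : ∀ i, p' ((((Equiv.ofBijective p hb).trans e').trans
        (Equiv.ofBijective p' hb').symm) i) = e' (p i) := fun i =>
      (Equiv.ofBijective p' hb').apply_symm_apply _
    intro i j
    rw [hd', key, key, he'd, hd]
  · have key : ∀ i, p' ((((Equiv.ofBijective p hb).trans e').trans
        (Equiv.ofBijective p' hb').symm) i) = e' (p i) := fun i =>
      (Equiv.ofBijective p' hb').apply_symm_apply _
    intro i a
    have h1 := hf' i ((((Equiv.ofBijective p hb).trans e').trans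
        (Equiv.ofBijective p' hb').symm) ∘ a)
    have h2 : p' ∘ ((((Equiv.ofBijective p hb).trans e').trans
        (Equiv.ofBijective p' hb').symm) ∘ a) = e' ∘ (p ∘ a) := funext fun j => key (a j)
    rw [h2, he'f, ← hf] at h1
    exact h1

end Pool.Agent.H19.PM
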