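import Pool.Agent.H55.PM.Targets

set_option autoImplicit false

open Finset Pool.Agent.H55.PM

namespace Pool.Agent.H19.PMTD

theorem le_tower (v : ℕ) : v ≤ 2 ^ (2 ^ v - 1) := by
  have h1 : v < 2 ^ v := Nat.lt_two_pow_self
  have h2 : 2 ^ v - 1 < 2 ^ (2 ^ v - 1) := Nat.lt_two_pow_self
  omega

theorem cnt_mono (A : Set ℕ) {x y : ℕ} (h : x ≤ y) : cnt A x ≤ cnt A y := by
  unfold cnt
  apply Set.ncard_le_ncard
  · intro a ha
    exact ⟨ha.1, ha.2.1, le_trans ha.2.2 h⟩
  · exact (Set.finite_Icc _ _).subset Set.inter_subset_right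

theorem main (hTL : T_TL) (hIN : T_IN) (hDV : T_DV) : T_TD := by
  intro h hh
  have hx : ∀ k : ℕ, ∃ x₀ : ℕ, ∀ x ≥ x₀, (2 : ℝ) ^ (k + 3) ≤ h x := by
    intro k
    exact Filter.eventually_atTop.mp (hh.eventually_ge_atTop ((2 : ℝ) ^ (k + 3)))
  choose w hw using hx
  let v : ℕ → ℕ := fun k => ∑ i ∈ range (k + 1), (w i + 2)
  have hv1 : ∀ k, v k + 2 ≤ v (k + 1) := by
    intro k
    have : v (k + 1) = v k + (w (k + 1) + 2) := Finset.sum_range_succ _ _
    omega
  have hv2 : ∀ k, w k ≤ v k := by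
    intro k
    have : w k + 2 ≤ v k :=
      Finset.single_le_sum (f := fun i => w i + 2) (fun _ _ => Nat.zero_le _)
        (Finset.mem_range.mpr (Nat.lt_succ_self k))
    omega
  have hvm : StrictMono v := strictMono_nat_of_lt_succ (fun k => by have := hv1 k; omega)
  have hVinf : (Set.range v).Infinite := Set.infinite_range_of_injective hvm.injective
  have hVc : (Set.range v)ᶜ.Infinite := by
    apply Set.infinite_of_injective_forall_mem (f := fun k => v k + 1)
    · intro a b hab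
      exact hvm.injective (Nat.succ_injective hab)
    · rintro k ⟨i, hi⟩
      have h1 : v k < v i := by rw [hi]; exact Nat.lt_succ_self _
      have h2 : k < i := hvm.lt_iff_lt.mp h1
      have h3 : v (k + 1) ≤ v i := hvm.monotone h2
      have := hv1 k
      have hi' : v i = v k + 1 := hi
      omega
  obtain ⟨hA, hM⟩ := hIN _ hVinf hVc
  refine ⟨AV (Set.range v), MV (Set.range v), hA, hM, ?_, fun m hm => hm.1, fun n => hTL _ n, ?_⟩
  · rintro a ⟨i, _, rfl⟩
    positivity
  refine ⟨max (w 0) 1, fun x hx => ?_⟩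
  have hx1 : 1 ≤ x := le_trans (le_max_right _ _) hx
  have hx0 : w 0 ≤ x := le_trans (le_max_left _ _) hx
  set X := Nat.log 2 x with hX
  set c := (Set.range v ∩ Set.Iic (Nat.log 2 (X + 1))).ncard with hc
  have h1 : x < 2 ^ (X + 1) := Nat.lt_pow_succ_log_self (by norm_num) x
  have h2 : 2 ^ X ≤ x := Nat.pow_log_le_self 2 (by omega)
  have hlog : Real.log x ≤ (X : ℝ) + 1 := by
    calc Real.log x ≤ Real.log ((2 : ℝ) ^ (X + 1)) := by
          apply Real.log_le_log (by exact_mod_cast hx1)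
          exact_mod_cast h1.le
      _ = ((X + 1 : ℕ) : ℝ) * Real.log 2 := Real.log_pow _ _
      _ ≤ ((X + 1 : ℕ) : ℝ) * 1 := by
          apply mul_le_mul_of_nonneg_left _ (Nat.cast_nonneg _)
          have := Real.log_two_lt_d9
          linarith
      _ = _ := by push_cast; ring
  have h3 : X + 1 ≤ 2 ^ (1 + c) * cnt (AV (Set.range v)) x := by
    calc X + 1 ≤ 2 ^ (1 + c) * cnt (AV (Set.range v)) (2 ^ X) := hDV _ X
      _ ≤ _ := Nat.mul_le_mul_left _ (cnt_mono _ h2)
  have h4 : (2 : ℝ) ^ (1 + c) ≤ h x := by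
    rcases Nat.eq_zero_or_pos c with h0 | h0
    · rw [h0]
      have := hw 0 x hx0
      norm_num at this ⊢
      linarith
    · obtain ⟨k, hk⟩ : ∃ k, c = k + 1 := ⟨c - 1, by omega⟩
      have h5 : v k ≤ Nat.log 2 (X + 1) := by
        by_contra hcon
        push Not at hcon
        have h6 : Set.range v ∩ Set.Iic (Nat.log 2 (X + 1)) ⊆ v '' (Set.Iio k) := by
          rintro _ ⟨⟨i, rfl⟩, hi⟩
          refine ⟨i, ?_, rfl⟩
          have : v i < v k := lt_of_le_of_lt hi hcon
          exact hvm.lt_iff_lt.mp this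
        have h7 : c ≤ (v '' (Set.Iio k)).ncard :=
          Set.ncard_le_ncard h6 ((Set.finite_Iio k).image v)
        have h8 : (v '' (Set.Iio k)).ncard ≤ k := by
          calc (v '' (Set.Iio k)).ncard ≤ (Set.Iio k).ncard :=
                Set.ncard_image_le (Set.finite_Iio k)
            _ = k := by
                rw [Set.ncard_eq_toFinset_card']
                simp
        omega
      have h6 : 2 ^ v k ≤ X + 1 := by
        calc 2 ^ v k ≤ 2 ^ Nat.log 2 (X + 1) := Nat.pow_le_pow_right (by norm_num) h5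
          _ ≤ X + 1 := Nat.pow_log_le_self 2 (by omega)
      have h7 : w k ≤ x := by
        calc w k ≤ v k := hv2 k
          _ ≤ 2 ^ (2 ^ v k - 1) := le_tower _
          _ ≤ 2 ^ X := Nat.pow_le_pow_right (by norm_num) (by omega)
          _ ≤ x := h2
      calc (2 : ℝ) ^ (1 + c) ≤ (2 : ℝ) ^ (k + 3) := by
            apply pow_le_pow_right₀ (by norm_num)
            omega
        _ ≤ h x := hw k x h7
  calc Real.log x ≤ ((X + 1 : ℕ) : ℝ) := by push_cast; exact hlog
    _ ≤ ((2 ^ (1 + c) * cnt (AV (Set.range v)) x : ℕ) : ℝ) := by exact_mod_cast h3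
    _ = (2 : ℝ) ^ (1 + c) * cnt (AV (Set.range v)) x := by push_cast; ring
    _ ≤ h x * cnt (AV (Set.range v)) x := by
        apply mul_le_mul_of_nonneg_right h4 (Nat.cast_nonneg _)

end Pool.Agent.H19.PMTD
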