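import Pool.Agent.H55.PM.Targets

set_option autoImplicit false

open Finset Pool.Agent.H55.PM

namespace Pool.Agent.H19.PMTU

/-- the finite set `A ∩ [1, N]` -/
noncomputable def fin (A : Set ℕ) (N : ℕ) : Finset ℕ :=
  ((Set.finite_Icc 1 N).subset (Set.inter_subset_right : A ∩ Set.Icc 1 N ⊆ _)).toFinset

theorem mem_fin (A : Set ℕ) (N a : ℕ) : a ∈ fin A N ↔ a ∈ A ∧ 1 ≤ a ∧ a ≤ N := by
  simp [fin]

theorem card_fin (A : Set ℕ) (N : ℕ) : (fin A N).card = cnt A N := by
  unfold fin cnt
  rw [Set.ncard_eq_toFinset_card _ ((Set.finite_Icc 1 N).subset Set.inter_subset_right)]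

variable {S : Finset ℕ}

/-- the multiset with multiplicities `f` -/
def ms (f : S → ℕ) : Multiset ℕ := ∑ a : S, Multiset.replicate (f a) a.1

theorem count_ms (f : S → ℕ) (a : S) : (ms f).count a.1 = f a := by
  unfold ms
  rw [Multiset.count_sum']
  simp only [Multiset.count_replicate]
  rw [Finset.sum_eq_single a]
  · simp
  · intro b _ hb
    rw [if_neg]
    intro h
    exact hb (Subtype.ext h)
  · simp

theorem mem_ms (f : S → ℕ) (b : ℕ) (hb : b ∈ ms f) : ∃ a : S, b = a.1 ∧ f a ≠ 0 := by
  unfold ms at hb
  rw [Multiset.mem_sum] at hb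
  obtain ⟨a, _, ha⟩ := hb
  rw [Multiset.mem_replicate] at ha
  exact ⟨a, ha.2, ha.1⟩

theorem sum_ms (f : S → ℕ) : (ms f).sum = ∑ a : S, f a * a.1 := by
  unfold ms
  have := map_sum (Multiset.sumAddMonoidHom : Multiset ℕ →+ ℕ)
    (fun a : S => Multiset.replicate (f a) a.1) Finset.univ
  rw [Multiset.coe_sumAddMonoidHom] at this
  rw [this]
  apply Finset.sum_congr rfl
  intro a _
  rw [Multiset.sum_replicate, smul_eq_mul]

theorem main : T_TU := by
  classical
  intro A M X Y
  obtain ⟨SA, hSA⟩ : ∃ SA : Finset ℕ, SA = fin A X := ⟨_, rfl⟩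
  have hmem : ∀ a : SA, a.1 ∈ A ∧ 1 ≤ a.1 ∧ a.1 ≤ X := by
    intro a
    have h := a.2
    have h' : a.1 ∈ fin A X := hSA ▸ h
    exact (mem_fin A X a.1).mp h'
  have hpos : ∀ f : SA → ℕ, ∀ b ∈ ms f, 0 < b := by
    intro f b hb
    obtain ⟨a, rfl, _⟩ := mem_ms f b hb
    have := hmem a
    omega
  let P : (SA → ℕ) → (Σ n : ℕ, Nat.Partition n) := fun f =>
    ⟨(ms f).sum, ⟨ms f, fun {b} hb => hpos f b hb, rfl⟩⟩
  have hinj : Function.Injective P := by
    intro f g hfg
    have h1 : ms f = ms g := congrArg (fun q : (Σ n : ℕ, Nat.Partition n) => q.2.parts) hfg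
    funext a
    rw [← count_ms f a, ← count_ms g a, h1]
  have hcard : (Fintype.piFinset (fun _ : SA => insert 0 (fin M Y))).card =
      (1 + cnt M Y) ^ cnt A X := by
    rw [Fintype.card_piFinset]
    have h0 : (0 : ℕ) ∉ fin M Y := by rw [mem_fin]; omega
    rw [Finset.prod_const, Finset.card_insert_of_notMem h0, card_fin, Finset.card_univ,
      Fintype.card_coe, hSA, card_fin, add_comm]
  rw [← hcard]
  have hpc : ∀ n, pc A M n = (Finset.univ.filter (fun p : Nat.Partition n => p ∈ PS A M n)).card := by
    intro n
    unfold pc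
    rw [Set.ncard_eq_toFinset_card']
    congr 1
    ext p
    simp
  calc (Fintype.piFinset (fun _ : SA => insert 0 (fin M Y))).card
      ≤ ((range (X * X * Y + 1)).sigma (fun n =>
          Finset.univ.filter (fun p : Nat.Partition n => p ∈ PS A M n))).card := by
        apply Finset.card_le_card_of_injOn P _ hinj.injOn
        intro f hf
        rw [Finset.mem_coe, Fintype.mem_piFinset] at hf
        rw [Finset.mem_coe, Finset.mem_sigma, Finset.mem_range, Finset.mem_filter]
        refine ⟨?_, Finset.mem_univ _, ?_⟩
        · show (ms f).sum < X * X * Y + 1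
          rw [sum_ms, Nat.lt_succ_iff]
          calc ∑ a : SA, f a * a.1 ≤ ∑ _a : SA, Y * X := by
                apply Finset.sum_le_sum
                intro a _
                have h1 := hmem a
                have h2 := hf a
                rw [Finset.mem_insert, mem_fin] at h2
                apply Nat.mul_le_mul _ h1.2.2
                omega
            _ = cnt A X * (Y * X) := by
                rw [Finset.sum_const, Finset.card_univ, Fintype.card_coe, hSA, card_fin,
                  smul_eq_mul]
            _ ≤ X * (Y * X) := by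
                apply Nat.mul_le_mul_right
                rw [← card_fin]
                calc (fin A X).card ≤ (Finset.Icc 1 X).card := by
                      apply Finset.card_le_card
                      intro a ha
                      rw [mem_fin] at ha
                      exact Finset.mem_Icc.mpr ha.2
                  _ = X := by simp
            _ = X * X * Y := by ring
        · intro b hb
          obtain ⟨a, rfl, ha⟩ := mem_ms f b hb
          have h1 := hmem a
          have h2 := hf a
          rw [Finset.mem_insert, mem_fin] at h2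
          refine ⟨h1.1, ?_⟩
          show (ms f).count a.1 ∈ M
          rw [count_ms]
          rcases h2 with h2 | h2
          · exact absurd h2 ha
          · exact h2.1
    _ = ∑ n ∈ range (X * X * Y + 1), pc A M n := by
        rw [Finset.card_sigma]
        apply Finset.sum_congr rfl
        intro n _
        rw [hpc]

end Pool.Agent.H19.PMTU
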